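import Pool.Agent.W169.HF.DefsB
import Pool.Agent.W32.HF.Der
import Pool.Agent.W762.HF.HS
import Pool.Agent.W346.HF.Heat

set_option autoImplicit false

/-!
# Zeros of the heat flow on the line give zero-free half-strips

Follows the argument of `Pool/Agent/W186/HZ/Bw1.lean`, `Bw2.lean` (helper186).
-/

namespace Pool.Agent.W85.HF

open Complex Filter Topology MeasureTheory Set
open Pool.Agent.W169.HF

/-- the flow of a slow function is entire -/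
lemma heat_diff {f : ℂ → ℂ} (hf : Slow f) {t : ℝ} (ht : 0 ≤ t) : Differentiable ℂ (heat t f) := by
  rw [Pool.Agent.W346.HF.heat_of Pool.Agent.W32.HF.der f hf t ht]
  exact (Pool.Agent.W762.HF.hs_of Pool.Agent.W32.HF.der f hf t).2.1.1

/-- the middle part of an integral (`Pool.Agent.W186.HZ.whole`) -/
lemma whole {f : ℝ → ℂ} {r a B : ℝ} (hf : Integrable f) (hr : 0 < r) (hB : 0 ≤ B)
    (hb : ∀ y : ℝ, r ≤ |y| → ‖f y‖ ≤ B * Real.exp (-(a + y) ^ 2)) :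
    ‖∫ y in (-r)..r, f y‖ ≤ ‖∫ y : ℝ, f y‖ + 2 * B := by
  have hg : Integrable (fun y : ℝ => Real.exp (-(a + y) ^ 2)) := by
    have h1 := (integrable_exp_neg_mul_sq one_pos).comp_add_left a
    refine h1.congr (Eventually.of_forall fun y => ?_)
    simp
  have hgi : ∫ y : ℝ, Real.exp (-(a + y) ^ 2) = Real.sqrt Real.pi := by
    have h1 := integral_add_left_eq_self (μ := (volume : Measure ℝ)) (fun v : ℝ => Real.exp (-v ^ 2)) a
    rw [h1]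
    have h2 := integral_gaussian 1
    rw [div_one] at h2
    rw [← h2]
    refine integral_congr_ae (Eventually.of_forall fun v => ?_)
    simp
  have h1 : ∫ y : ℝ, f y = (∫ y in Ioc (-r) r, f y) + ∫ y in (Ioc (-r) r)ᶜ, f y :=
    (integral_add_compl measurableSet_Ioc hf).symm
  rw [intervalIntegral.integral_of_le (by linarith)]
  have h2 : ∫ y in Ioc (-r) r, f y = (∫ y : ℝ, f y) - ∫ y in (Ioc (-r) r)ᶜ, f y := by
    rw [h1]; ring
  rw [h2]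
  refine (norm_sub_le _ _).trans ?_
  apply add_le_add_right
  have h3 : ‖∫ y in (Ioc (-r) r)ᶜ, f y‖ ≤ ∫ y in (Ioc (-r) r)ᶜ, B * Real.exp (-(a + y) ^ 2) := by
    apply norm_integral_le_of_norm_le (hg.const_mul B).integrableOn
    rw [ae_restrict_iff' measurableSet_Ioc.compl]
    refine Eventually.of_forall fun y hy => hb y ?_
    by_contra hc
    push Not at hc
    rw [abs_lt] at hc
    exact hy ⟨hc.1, hc.2.le⟩
  refine h3.trans ?_
  have h4 : ∫ y in (Ioc (-r) r)ᶜ, B * Real.exp (-(a + y) ^ 2) ≤ ∫ y : ℝ, B * Real.exp (-(a + y) ^ 2) :=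
    setIntegral_le_integral (hg.const_mul B) (Eventually.of_forall fun y => by positivity)
  refine h4.trans ?_
  rw [integral_const_mul, hgi]
  have hπ2 : Real.sqrt Real.pi ≤ 2 := by
    rw [Real.sqrt_le_left (by norm_num)]; linarith [Real.pi_le_four]
  rw [mul_comm]
  exact mul_le_mul_of_nonneg_right hπ2 hB

/-- norm of the integrand (`Pool.Agent.W186.HZ.Q_norm`) -/
lemma Q_norm {τ s : ℝ} (hτ : 0 < τ) (hs : s ^ 2 = 1 / (2 * τ)) (f : ℂ → ℂ) (w : ℂ) :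
    ‖Q f s 0 w‖ = Real.exp (-((w.re ^ 2 - w.im ^ 2) / (4 * τ))) * ‖f w‖ := by
  unfold Q
  rw [norm_mul, Complex.norm_exp]
  congr 2
  have e : -((s : ℂ) ^ 2 * (w - 0) ^ 2 / 2) = ((-(1 / (4 * τ)) : ℝ) : ℂ) * w ^ 2 := by
    have h1 : ((s : ℂ)) ^ 2 = ((1 / (2 * τ) : ℝ) : ℂ) := by rw [← hs]; push_cast; ring
    rw [h1]
    have : (τ : ℂ) ≠ 0 := by exact_mod_cast hτ.ne'
    push_cast
    field_simp
    ring
  rw [e, Complex.re_ofReal_mul]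
  have h2 : (w ^ 2).re = w.re ^ 2 - w.im ^ 2 := by
    rw [sq, Complex.mul_re]; ring
  rw [h2]
  ring

/-- the flow along the vertical direction -/
noncomputable def FV (F : ℂ → ℂ) (x : ℝ) (w : ℂ) : ℂ := F ((x : ℂ) + I * w)

lemma FV_deriv {F : ℂ → ℂ} (hF : Differentiable ℂ F) (x : ℝ) (w : ℂ) :
    HasDerivAt (FV F x) (deriv F ((x : ℂ) + I * w) * I) w := by
  have h1 := (hF ((x : ℂ) + I * w)).hasDerivAt
  have h2 : HasDerivAt (fun w : ℂ => (x : ℂ) + I * w) I w := by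
    simpa using ((hasDerivAt_id w).const_mul I).const_add (x : ℂ)
  exact h1.comp w h2

lemma FV_ld {F : ℂ → ℂ} (hF : Differentiable ℂ F) (x : ℝ) (w : ℂ) :
    logDeriv (FV F x) w = I * logDeriv F ((x : ℂ) + I * w) := by
  rw [logDeriv_apply, (FV_deriv hF x w).deriv, logDeriv_apply]
  unfold FV
  ring

lemma Q_FV {τ s : ℝ} (hτ : 0 < τ) (hs : s ^ 2 = 1 / (2 * τ)) (F : ℂ → ℂ) (x : ℝ) (w : ℂ) :
    Q (FV F x) s 0 w = cexp (-(w ^ 2 / (4 * τ))) * F ((x : ℂ) + I * w) := by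
  unfold Q FV
  congr 2
  have h1 : ((s : ℂ)) ^ 2 = ((1 / (2 * τ) : ℝ) : ℂ) := by rw [← hs]; push_cast; ring
  rw [h1]
  have : (τ : ℂ) ≠ 0 := by exact_mod_cast hτ.ne'
  push_cast
  field_simp
  ring

/-- away from the saddle, near -/
lemma out_near {X r0 κ ε t ℓ b h σ0 N G : ℝ} (ht : 0 < t) (hX : 0 < X) (h2 : 2 * t * ℓ ≤ X)
    (hL : 0 < ℓ) (hr0 : 0 < r0) (hh : r0 ≤ |h|) (hκ : κ = r0 ^ 2 / (20 * X)) (hε : ε ≤ κ)
    (ht8 : 1 ≤ 1 / (8 * t)) (hG : 0 ≤ G) (hN : N ≤ G * Real.exp (ℓ * σ0 + ε * ℓ)) :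
    Real.exp (-((h ^ 2 - b ^ 2) / (4 * t))) * N ≤
      G * Real.exp (b ^ 2 / (4 * t) + ℓ * σ0 - 3 * κ * ℓ) * Real.exp (-h ^ 2) := by
  have hκ0 : 0 < κ := by rw [hκ]; positivity
  have e1 : 5 * κ * ℓ ≤ h ^ 2 / (8 * t) := by
    rw [le_div_iff₀ (by positivity), hκ]
    have a1 : r0 ^ 2 ≤ h ^ 2 := by
      rw [← sq_abs h]
      exact pow_le_pow_left₀ hr0.le hh 2
    have a2 : 5 * (r0 ^ 2 / (20 * X)) * ℓ * (8 * t) = r0 ^ 2 * ((2 * t * ℓ) / X) := by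
      field_simp
      ring
    rw [a2]
    have a3 : (2 * t * ℓ) / X ≤ 1 := (div_le_one hX).2 h2
    calc r0 ^ 2 * ((2 * t * ℓ) / X) ≤ r0 ^ 2 * 1 := mul_le_mul_of_nonneg_left a3 (sq_nonneg _)
      _ ≤ h ^ 2 := by rw [mul_one]; exact a1
  have e2 : h ^ 2 ≤ h ^ 2 / (8 * t) := by
    calc h ^ 2 = h ^ 2 * 1 := (mul_one _).symm
      _ ≤ h ^ 2 * (1 / (8 * t)) := mul_le_mul_of_nonneg_left ht8 (sq_nonneg _)
      _ = _ := by rw [mul_one_div]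
  have e3 : (h ^ 2 - b ^ 2) / (4 * t) = h ^ 2 / (8 * t) + h ^ 2 / (8 * t) - b ^ 2 / (4 * t) := by
    field_simp
    ring
  calc Real.exp (-((h ^ 2 - b ^ 2) / (4 * t))) * N
      ≤ Real.exp (-((h ^ 2 - b ^ 2) / (4 * t))) * (G * Real.exp (ℓ * σ0 + ε * ℓ)) :=
        mul_le_mul_of_nonneg_left hN (Real.exp_pos _).le
    _ = G * Real.exp (-((h ^ 2 - b ^ 2) / (4 * t)) + (ℓ * σ0 + ε * ℓ)) := by
        rw [Real.exp_add (-((h ^ 2 - b ^ 2) / (4 * t)))]; ring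
    _ ≤ G * Real.exp (b ^ 2 / (4 * t) + ℓ * σ0 - 3 * κ * ℓ + -h ^ 2) := by
        apply mul_le_mul_of_nonneg_left _ hG
        apply Real.exp_le_exp.2
        rw [e3]
        have : ε * ℓ ≤ κ * ℓ := mul_le_mul_of_nonneg_right hε hL.le
        have hκL : 0 < κ * ℓ := by positivity
        linarith only [e1, e2, this, hκL]
    _ = _ := by rw [Real.exp_add _ (-h ^ 2)]; ring

/-- away from the saddle, far -/
lemma out_far {X κ K t ℓ b h σ0 M N G R1 : ℝ} (ht : 0 < t) (hX : 0 < X) (h2 : 2 * t * ℓ ≤ X)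
    (hL : 0 < ℓ) (hR : 1 ≤ R1) (hh : R1 ≤ |h|) (hR2 : 4 * X * (3 * κ + 2) ≤ R1 ^ 2) (hκ : 0 < κ)
    (hK : 1 ≤ K) (hKt : 1 + 11 * K ≤ 1 / (8 * t)) (hG : 0 ≤ G) (hM : M ≤ σ0 + 2) (hσ : 0 ≤ σ0) (hσ3 : σ0 ≤ 3)
    (hN : N ≤ G * Real.exp (ℓ * M + K * (1 + (σ0 ^ 2 + h ^ 2)))) :
    Real.exp (-((h ^ 2 - b ^ 2) / (4 * t))) * N ≤
      G * Real.exp (b ^ 2 / (4 * t) + ℓ * σ0 - 3 * κ * ℓ) * Real.exp (-h ^ 2) := by
  have hh0 : R1 ^ 2 ≤ h ^ 2 := by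
    rw [← sq_abs h]
    exact pow_le_pow_left₀ (by linarith) hh 2
  have hh1 : 1 ≤ h ^ 2 := le_trans (by nlinarith only [hR]) hh0
  have e1 : (3 * κ + 2) * ℓ ≤ h ^ 2 / (8 * t) := by
    rw [le_div_iff₀ (by positivity)]
    calc (3 * κ + 2) * ℓ * (8 * t) = (3 * κ + 2) * (4 * (2 * t * ℓ)) := by ring
      _ ≤ (3 * κ + 2) * (4 * X) := by
          apply mul_le_mul_of_nonneg_left _ (by positivity)
          linarith only [h2]
      _ = 4 * X * (3 * κ + 2) := by ring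
      _ ≤ _ := hR2.trans hh0
  have e2 : h ^ 2 + K * (1 + (σ0 ^ 2 + h ^ 2)) ≤ h ^ 2 / (8 * t) := by
    have a1 : h ^ 2 * (1 + 11 * K) ≤ h ^ 2 * (1 / (8 * t)) := mul_le_mul_of_nonneg_left hKt (sq_nonneg _)
    rw [mul_one_div] at a1
    refine le_trans ?_ a1
    have a2 : σ0 ^ 2 ≤ 9 := by nlinarith only [hσ, hσ3]
    have a3 : K * (1 + (σ0 ^ 2 + h ^ 2)) ≤ K * (11 * h ^ 2) := by
      apply mul_le_mul_of_nonneg_left _ (by linarith only [hK])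
      linarith only [a2, hh1]
    linarith only [a3]
  have e3 : (h ^ 2 - b ^ 2) / (4 * t) = h ^ 2 / (8 * t) + h ^ 2 / (8 * t) - b ^ 2 / (4 * t) := by
    field_simp
    ring
  have e4 : ℓ * M ≤ ℓ * (σ0 + 2) := mul_le_mul_of_nonneg_left hM hL.le
  calc Real.exp (-((h ^ 2 - b ^ 2) / (4 * t))) * N
      ≤ Real.exp (-((h ^ 2 - b ^ 2) / (4 * t))) * (G * Real.exp (ℓ * M + K * (1 + (σ0 ^ 2 + h ^ 2)))) :=
        mul_le_mul_of_nonneg_left hN (Real.exp_pos _).le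
    _ = G * Real.exp (-((h ^ 2 - b ^ 2) / (4 * t)) + (ℓ * M + K * (1 + (σ0 ^ 2 + h ^ 2)))) := by
        rw [Real.exp_add (-((h ^ 2 - b ^ 2) / (4 * t)))]; ring
    _ ≤ G * Real.exp (b ^ 2 / (4 * t) + ℓ * σ0 - 3 * κ * ℓ + -h ^ 2) := by
        apply mul_le_mul_of_nonneg_left _ hG
        apply Real.exp_le_exp.2
        rw [e3]
        linarith only [e1, e2, e4]
    _ = _ := by rw [Real.exp_add _ (-h ^ 2)]; ring

/-- lower bound at the saddle -/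
lemma mid {m κ θ ε t ℓ a b σ0 N G : ℝ} (ht : 0 < t) (hm : 0 < m) (h1 : m ≤ 2 * t * ℓ)
    (hL : 0 < ℓ) (ha : |a| ≤ θ) (hθ : θ ^ 2 / (2 * m) ≤ κ / 4) (hε : ε ≤ κ / 4)
    (hκ : 0 < κ) (hG : 0 ≤ G) (hN : G * Real.exp (ℓ * σ0 - ε * ℓ) ≤ N) :
    G * Real.exp (b ^ 2 / (4 * t) + ℓ * σ0 - κ * ℓ) ≤
      Real.exp (-((a ^ 2 - b ^ 2) / (4 * t))) * N := by
  have e1 : a ^ 2 / (4 * t) ≤ κ / 4 * ℓ := by
    have a1 : a ^ 2 ≤ θ ^ 2 := by
      rw [← sq_abs a]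
      exact pow_le_pow_left₀ (abs_nonneg _) ha 2
    rw [div_le_iff₀ (by positivity)] at hθ ⊢
    have a2 : κ / 4 * (2 * m) ≤ κ / 4 * (2 * (2 * t * ℓ)) :=
      mul_le_mul_of_nonneg_left (by linarith only [h1]) (by positivity)
    linarith only [a1, a2, hθ]
  have e3 : (a ^ 2 - b ^ 2) / (4 * t) = a ^ 2 / (4 * t) - b ^ 2 / (4 * t) := by ring
  calc G * Real.exp (b ^ 2 / (4 * t) + ℓ * σ0 - κ * ℓ)
      ≤ G * Real.exp (-((a ^ 2 - b ^ 2) / (4 * t)) + (ℓ * σ0 - ε * ℓ)) := by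
        apply mul_le_mul_of_nonneg_left _ hG
        apply Real.exp_le_exp.2
        rw [e3]
        have : ε * ℓ ≤ κ / 4 * ℓ := mul_le_mul_of_nonneg_right hε hL.le
        have hκL : 0 < κ * ℓ := by positivity
        linarith only [e1, this, hκL]
    _ = Real.exp (-((a ^ 2 - b ^ 2) / (4 * t))) * (G * Real.exp (ℓ * σ0 - ε * ℓ)) := by
        rw [Real.exp_add]; ring
    _ ≤ _ := mul_le_mul_of_nonneg_left hN (Real.exp_pos _).le

/-- the local situation at the saddle -/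
lemma lcb {X ε θ g ρ s t ℓ x R1 : ℝ} {F : ℂ → ℂ} (hF : Differentiable ℂ F) (ht : 0 < t) (hX : 0 < X)
    (hρ0 : 0 < ρ) (hρg : 2 * ρ ≤ g) (hρ1 : ρ ≤ 1 / 2)
    (h0 : 0 < 2 * t * ℓ) (h2 : 2 * t * ℓ ≤ X) (hL : 0 < ℓ) (hs : s ^ 2 = 1 / (2 * t)) (hθ : 0 < θ)
    (hε1 : ε ≤ θ / X) (hR1 : 3 ≤ R1)
    (hx1 : 2 * t * ℓ + g ≤ x) (hx2 : x ≤ 2)
    (hz : ∀ u : ℂ, 0 < u.re → |u.im| ≤ R1 → F u ≠ 0)
    (hp : ∀ u : ℂ, ρ / 2 ≤ u.re → u.re ≤ R1 → |u.im| ≤ R1 → ‖logDeriv F u - ℓ‖ ≤ ε * ℓ) :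
    Lc ρ s θ (I * (ℓ : ℂ)) (I * ((2 * t * ℓ : ℝ) : ℂ)) (FV F x) := by
  intro w hw
  rw [Metric.mem_ball, dist_eq_norm] at hw
  have hwr : |w.re| < ρ := by
    have := (Complex.abs_re_le_norm _).trans_lt hw
    simpa using this
  have hwi : |w.im - 2 * t * ℓ| < ρ := by
    have := (Complex.abs_im_le_norm _).trans_lt hw
    simpa using this
  rw [abs_lt] at hwi
  have e1 : ((x : ℂ) + I * w).re = x - w.im := by simp [sub_eq_add_neg]
  have e2 : ((x : ℂ) + I * w).im = w.re := by simp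
  have r1 : ρ / 2 ≤ x - w.im := by linarith only [hwi.2, hx1, hρg, hρ0]
  have r2 : x - w.im ≤ R1 := by linarith only [hwi.1, hx2, h0, hρ1, hR1]
  have r3 : |w.re| ≤ R1 := by linarith only [hwr, hρ1, hR1]
  have hk := hp ((x : ℂ) + I * w) (by rw [e1]; exact r1) (by rw [e1]; exact r2) (by rw [e2]; exact r3)
  refine ⟨(FV_deriv hF x w).differentiableAt, ?_, ?_⟩
  · unfold FV
    apply hz
    · rw [e1]; linarith only [r1, hρ0]
    · rw [e2]; exact r3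
  · rw [FV_ld hF, ← mul_sub, norm_mul, Complex.norm_I, one_mul]
    refine hk.trans ?_
    have a1 : ε * ℓ ≤ θ / X * ℓ := mul_le_mul_of_nonneg_right hε1 hL.le
    refine a1.trans ?_
    rw [hs]
    have : θ / X * ℓ = θ * (ℓ / X) := by field_simp
    rw [this]
    apply mul_le_mul_of_nonneg_left _ hθ.le
    rw [div_le_div_iff₀ hX (by positivity)]
    linarith only [h2]

/-- the main step: profile of the flow implies `f x ≠ 0` -/
lemma core (hS : S_SADL) (h4 : S_INV) {ϑ0 g X ρ r0 κ θ ε R1 K t ℓ G x : ℝ} {f : ℂ → ℂ} (hf : Slow f)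
    (hϑ2 : ϑ0 ≤ 2)
    (hg : 0 < g) (hX1 : 1 ≤ X)
    (hρ0 : 0 < ρ) (hρg : 2 * ρ ≤ g) (hρ1 : ρ ≤ 1 / 2) (hr0 : r0 = ρ / 10)
    (hκ : κ = r0 ^ 2 / (20 * X)) (hθ0 : 0 < θ) (hθ1 : θ ≤ ρ / 100000) (hθ4 : θ ^ 2 / (2 * g) ≤ κ / 4)
    (hε1 : ε ≤ κ / 4) (hε2 : ε ≤ θ / X) (hR1 : R1 = 20 * X) (hK : 1 ≤ K)
    (hG : 0 < G) (ht : 0 < t)
    (hLa : 4 * X * (1 + 11 * K) ≤ ℓ) (hLb : X * (30000 ^ 2 + 25 / ρ ^ 2) ≤ ℓ)
    (hLc : 2 * ℓ / g ≤ Real.exp (κ * ℓ)) (hLd : 4 ≤ κ * ℓ)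
    (h1 : g ≤ 2 * t * ℓ) (h2 : 2 * t * ℓ ≤ X) (hx1 : 2 * t * ℓ + g ≤ x) (hx2 : x ≤ 2)
    (hup : ∀ u : ℂ, ‖heat t f u‖ ≤ G * Real.exp (ℓ * max |u.re| ϑ0 + K * (1 + ‖u‖ ^ 2)))
    (hz : ∀ u : ℂ, 0 < u.re → |u.im| ≤ R1 → heat t f u ≠ 0)
    (hp : ∀ u : ℂ, 0 + ρ / 2 ≤ u.re → u.re ≤ R1 → |u.im| ≤ R1 → G * Real.exp (ℓ * u.re - ε * ℓ) ≤ ‖heat t f u‖ ∧
      ‖heat t f u‖ ≤ G * Real.exp (ℓ * u.re + ε * ℓ) ∧ ‖logDeriv (heat t f) u - ℓ‖ ≤ ε * ℓ) : f x ≠ 0 := by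
  have hXp : 0 < X := by linarith
  have hr00 : 0 < r0 := by rw [hr0]; positivity
  have hκ0 : 0 < κ := by rw [hκ]; positivity
  have hκ1 : κ ≤ 1 := by
    rw [hκ, div_le_one (by positivity), hr0]
    nlinarith only [hρ0, hρ1, hX1]
  have hLp : 0 < ℓ := by
    have : 0 < 4 * X * (1 + 11 * K) := by positivity
    linarith only [this, hLa]
  have h0 : 0 < 2 * t * ℓ := by positivity
  have hX8 : ℓ / (4 * X) ≤ 1 / (8 * t) := by
    rw [div_le_div_iff₀ (by positivity) (by positivity)]; linarith only [h2]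
  have hKt : 1 + 11 * K ≤ 1 / (8 * t) := by
    refine le_trans ?_ hX8
    rw [le_div_iff₀ (by positivity)]; linarith only [hLa]
  have ht8 : 1 ≤ 1 / (8 * t) := by linarith only [hKt, hK]
  obtain ⟨s, hs⟩ : ∃ s : ℝ, s = Real.sqrt (1 / (2 * t)) := ⟨_, rfl⟩
  have hs2 : s ^ 2 = 1 / (2 * t) := by rw [hs]; exact Real.sq_sqrt (by positivity)
  have hs0 : 0 ≤ s := by rw [hs]; exact Real.sqrt_nonneg _
  have hsL : ℓ / X ≤ s ^ 2 := by
    rw [hs2, div_le_div_iff₀ hXp (by positivity)]; linarith only [h2]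
  have hsL2 : s ^ 2 ≤ ℓ / g := by
    rw [hs2, div_le_div_iff₀ (by positivity) hg]; linarith only [h1]
  have hs3 : 30000 ^ 2 + 25 / ρ ^ 2 ≤ s ^ 2 := by
    refine le_trans ?_ hsL
    rw [le_div_iff₀ hXp]; linarith only [hLb]
  have hs4 : 30000 ≤ s := by
    have h0 : (0 : ℝ) ≤ 25 / ρ ^ 2 := by positivity
    exact (sq_le_sq₀ (by norm_num) hs0).1 (by linarith only [h0, hs3])
  have hs5 : 5 / ρ ≤ s := by
    refine (sq_le_sq₀ (by positivity) hs0).1 ?_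
    rw [div_pow]
    have e : (5 : ℝ) ^ 2 = 25 := by norm_num
    rw [e]
    linarith only [hs3]
  have hs1 : 1 ≤ s := by linarith only [hs4]
  have hFd := heat_diff hf ht.le
  have hR3 : 3 ≤ R1 := by rw [hR1]; linarith only [hX1]
  have hLcc := lcb hFd ht hXp hρ0 hρg hρ1 h0 h2 hLp hs2 hθ0 hε2 hR3 hx1 hx2 hz
    (fun u q1 q2 q3 => (hp u (by linarith only [q1]) q2 q3).2.2)
  obtain ⟨w0, hw0, -, hw2⟩ := hS _ _ _ _ _ _ hρ0 hρ1 hs4 hs5 hθ0 hθ1 hLcc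
  have hzz : I * ((2 * t * ℓ : ℝ) : ℂ) - I * (ℓ : ℂ) / (s : ℂ) ^ 2 = 0 := by
    have e1 : ((s : ℂ)) ^ 2 = ((1 / (2 * t) : ℝ) : ℂ) := by rw [← hs2]; push_cast; ring
    rw [e1]
    have : (t : ℂ) ≠ 0 := by exact_mod_cast ht.ne'
    push_cast
    field_simp
    ring
  rw [hzz] at hw2
  obtain ⟨a, ha⟩ : ∃ a : ℝ, a = w0.re := ⟨_, rfl⟩
  obtain ⟨b, hb⟩ : ∃ b : ℝ, b = w0.im := ⟨_, rfl⟩
  have ha1 : |a| ≤ θ := by
    have := (Complex.abs_re_le_norm _).trans hw0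
    rw [ha]
    simpa using this
  have hb1 : |b - 2 * t * ℓ| ≤ θ := by
    have := (Complex.abs_im_le_norm _).trans hw0
    rw [hb]
    simpa using this
  have hb1' := abs_le.1 hb1
  have r1 : ρ / 2 ≤ x - b := by linarith only [hb1'.2, hx1, hρg, hρ0, hθ1]
  have r2 : x - b ≤ 3 := by linarith only [hb1'.1, hx2, h0, hθ1, hρ1]
  have r3 : x - b ≤ R1 := r2.trans hR3
  obtain ⟨E, hE⟩ : ∃ E : ℝ, E = b ^ 2 / (4 * t) + ℓ * (x - b) := ⟨_, rfl⟩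
  have pre : ∀ w : ℂ, w.im = b → ((x : ℂ) + I * w).re = x - b := by
    intro w hw; simp [hw, sub_eq_add_neg]
  have pim : ∀ w : ℂ, ((x : ℂ) + I * w).im = w.re := by
    intro w; simp
  -- the saddle
  have hmid : G * Real.exp (E - κ * ℓ) ≤ ‖Q (FV (heat t f) x) s 0 w0‖ := by
    rw [Q_norm ht hs2, hE, ← ha, ← hb]
    unfold FV
    have hk := hp ((x : ℂ) + I * w0) (by rw [pre w0 hb.symm]; linarith only [r1])
      (by rw [pre w0 hb.symm]; exact r3) (by rw [pim, ← ha]; linarith only [ha1, hθ1, hρ1, hR3])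
    rw [pre w0 hb.symm] at hk
    exact mid ht hg h1 hLp ha1 hθ4 hε1 hκ0 hG.le hk.1
  -- away from the saddle
  have hout : ∀ y : ℝ, ρ / 5 ≤ |y| → ‖Q (FV (heat t f) x) s 0 (w0 + y)‖ ≤
      G * Real.exp (E - 3 * κ * ℓ) * Real.exp (-(a + y) ^ 2) := by
    intro y hy
    have hre : (w0 + (y : ℂ)).re = a + y := by rw [Complex.add_re, Complex.ofReal_re, ha]
    have him : (w0 + (y : ℂ)).im = b := by rw [Complex.add_im, Complex.ofReal_im, hb, add_zero]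
    rw [Q_norm ht hs2, hE, hre, him]
    unfold FV
    have hyr : r0 ≤ |a + y| := by
      have h3 : |y| ≤ |a + y| + |a| := by
        have := abs_sub (a + y) a
        rwa [add_sub_cancel_left] at this
      linarith only [h3, ha1, hθ1, hr0, hy, hρ0]
    rcases le_or_gt |a + y| R1 with hc | hc
    · have hk := hp ((x : ℂ) + I * (w0 + y)) (by rw [pre _ him]; linarith only [r1])
        (by rw [pre _ him]; exact r3) (by rw [pim, hre]; exact hc)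
      rw [pre _ him] at hk
      exact out_near ht hXp h2 hLp hr00 hyr hκ (by linarith only [hε1, hκ0]) ht8 hG.le hk.2.1
    · have hk := hup ((x : ℂ) + I * (w0 + y))
      rw [pre _ him, Complex.sq_norm, Complex.normSq_apply, pre _ him, pim, hre] at hk
      have hpos : 0 < x - b := by linarith only [r1, hρ0]
      refine out_far (R1 := R1) (M := max |x - b| ϑ0) (K := K) ht hXp h2 hLp (by linarith only [hR3]) hc.le ?_ hκ0 hK hKt
        hG.le ?_ hpos.le r2 (hk.trans (le_of_eq ?_))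
      · rw [hR1]
        nlinarith only [hX1, hκ1, hκ0]
      · rw [abs_of_pos hpos]
        exact max_le (by linarith only []) (by linarith only [hpos, hϑ2])
      · congr 2
        ring
  obtain ⟨hint, hval⟩ := h4 f hf t ht x w0
  intro hzero
  rw [hzero, mul_zero] at hval
  have hfun : (fun y : ℝ => cexp (-((w0 + y) ^ 2 / (4 * t))) * heat t f (x + I * (w0 + y))) =
      fun y : ℝ => Q (FV (heat t f) x) s 0 (w0 + y) := by
    funext y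
    rw [Q_FV ht hs2]
  rw [hfun] at hint hval
  have hwh := whole hint (by positivity : 0 < ρ / 5) (by positivity :
    0 ≤ G * Real.exp (E - 3 * κ * ℓ)) hout
  rw [hval, norm_zero, zero_add] at hwh
  have hsle : Real.exp (-(κ * ℓ)) ≤ 1 / 2 / s := by
    rw [Real.exp_neg, ← one_div, div_div]
    apply one_div_le_one_div_of_le (by positivity)
    have : s * 1 ≤ s * s := mul_le_mul_of_nonneg_left hs1 hs0
    have h3 : 2 * s ≤ 2 * ℓ / g := by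
      have e : 2 * ℓ / g = 2 * (ℓ / g) := by ring
      rw [e]
      linarith only [this, hsL2]
    exact h3.trans hLc
  have hfin : Real.exp (-(κ * ℓ)) * (G * Real.exp (E - κ * ℓ)) ≤
      2 * (G * Real.exp (E - 3 * κ * ℓ)) := by
    refine le_trans ?_ (hw2.trans hwh)
    exact mul_le_mul hsle hmid (by positivity) (by positivity)
  have e1 : Real.exp (-(κ * ℓ)) * (G * Real.exp (E - κ * ℓ)) =
      Real.exp (κ * ℓ) * (G * Real.exp (E - 3 * κ * ℓ)) := by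
    have : Real.exp (-(κ * ℓ)) * Real.exp (E - κ * ℓ) = Real.exp (κ * ℓ) * Real.exp (E - 3 * κ * ℓ) := by
      rw [← Real.exp_add, ← Real.exp_add]
      congr 1
      ring
    calc _ = G * (Real.exp (-(κ * ℓ)) * Real.exp (E - κ * ℓ)) := by ring
      _ = _ := by rw [this]; ring
  rw [e1] at hfin
  have h5 : Real.exp (κ * ℓ) ≤ 2 :=
    le_of_mul_le_mul_right hfin (by positivity)
  have h6 := Real.add_one_le_exp (κ * ℓ)
  linarith only [h5, h6, hLd]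

/-- `S_BWD` from the other statements -/
theorem bwd_of (hS : S_SADL) (h1 : S_TC) (h2 : S_HUP) (h3 : S_HLO) (h4 : S_INV) : S_BWD := by
  intro K ϑ0 g X hK hϑ hϑ2 hg hX1
  have hXp : 0 < X := by linarith
  obtain ⟨ρ, hρ⟩ : ∃ ρ : ℝ, ρ = min g 1 / 2 := ⟨_, rfl⟩
  have hρ0 : 0 < ρ := by rw [hρ]; have := lt_min hg one_pos; linarith
  have hρ1 : ρ ≤ 1 / 2 := by rw [hρ]; have := min_le_right g 1; linarith
  have hρg : 2 * ρ ≤ g := by rw [hρ]; have := min_le_left g 1; linarith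
  obtain ⟨r0, hr0⟩ : ∃ r0 : ℝ, r0 = ρ / 10 := ⟨_, rfl⟩
  have hr00 : 0 < r0 := by rw [hr0]; positivity
  obtain ⟨κ, hκ⟩ : ∃ κ : ℝ, κ = r0 ^ 2 / (20 * X) := ⟨_, rfl⟩
  have hκ0 : 0 < κ := by rw [hκ]; positivity
  obtain ⟨θ, hθ⟩ : ∃ θ : ℝ, θ = min (ρ / 100000) (κ * g / 2) := ⟨_, rfl⟩
  have hθ0 : 0 < θ := by rw [hθ]; exact lt_min (by positivity) (by positivity)
  have hθ1 : θ ≤ ρ / 100000 := by rw [hθ]; exact min_le_left _ _
  have hθ2 : θ ≤ κ * g / 2 := by rw [hθ]; exact min_le_right _ _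
  have hθ3 : θ ≤ 1 := by linarith
  have hθ4 : θ ^ 2 / (2 * g) ≤ κ / 4 := by
    rw [div_le_iff₀ (by positivity)]
    have : θ * θ ≤ 1 * (κ * g / 2) := mul_le_mul hθ3 hθ2 hθ0.le (by norm_num)
    linarith only [this]
  obtain ⟨ε, hε⟩ : ∃ ε : ℝ, ε = min (κ / 4) (θ / X) := ⟨_, rfl⟩
  have hε0 : 0 < ε := by rw [hε]; exact lt_min (by positivity) (by positivity)
  have hε1 : ε ≤ κ / 4 := by rw [hε]; exact min_le_left _ _
  have hε2 : ε ≤ θ / X := by rw [hε]; exact min_le_right _ _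
  obtain ⟨K', ℓ1, hK', hup⟩ := h2 K ϑ0 X hK hϑ hϑ2 hX1
  obtain ⟨κ1, R, hκ1, hR, htc⟩ := h1 (ϑ0 + 1) (ϑ0 + 1 / 2) 0 (ρ / 2) ε (20 * X) (by linarith) le_rfl
    (by linarith) hε0 (by linarith)
  have hRp : 1 ≤ R := by linarith
  obtain ⟨ℓ2, hlo⟩ := h3 K ϑ0 g X κ1 R hK hϑ hϑ2 hg hX1 hκ1 hRp
  obtain ⟨ℓ3, hℓ3⟩ : ∃ ℓ3 : ℝ, ∀ t : ℝ, ℓ3 ≤ t → 2 * t / g ≤ Real.exp (κ * t) := by
    have h1 : Tendsto (fun x : ℝ => Real.exp (κ * x) / x) atTop atTop := by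
      have := tendsto_exp_mul_div_rpow_atTop 1 κ hκ0
      simpa using this
    have h2 := h1.eventually_ge_atTop (2 / g)
    obtain ⟨t3, ht3⟩ := Filter.eventually_atTop.1 (h2.and (eventually_gt_atTop 0))
    refine ⟨t3, fun t ht => ?_⟩
    obtain ⟨h3, h4⟩ := ht3 t ht
    rw [le_div_iff₀ h4] at h3
    calc 2 * t / g = 2 / g * t := by ring
      _ ≤ _ := h3
  refine ⟨R, max (max (max ℓ1 ℓ2) (max ℓ3 (4 / κ))) (max (max (4 * X * (1 + 11 * K'))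
    (X * (30000 ^ 2 + 25 / ρ ^ 2))) (K' * (1 + 2 * R ^ 2))), ?_⟩
  intro ℓ G t f hℓ hU ht hg1 hX2 hz x hx1 hx2
  have q1 : ℓ1 ≤ ℓ := (((le_max_left _ _).trans (le_max_left _ _)).trans (le_max_left _ _)).trans hℓ
  have q2 : ℓ2 ≤ ℓ := (((le_max_right _ _).trans (le_max_left _ _)).trans (le_max_left _ _)).trans hℓ
  have q3 : ℓ3 ≤ ℓ := (((le_max_left _ _).trans (le_max_right _ _)).trans (le_max_left _ _)).trans hℓ
  have q4 : 4 / κ ≤ ℓ := (((le_max_right _ _).trans (le_max_right _ _)).trans (le_max_left _ _)).trans hℓ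
  have q5 : 4 * X * (1 + 11 * K') ≤ ℓ :=
    (((le_max_left _ _).trans (le_max_left _ _)).trans (le_max_right _ _)).trans hℓ
  have q6 : X * (30000 ^ 2 + 25 / ρ ^ 2) ≤ ℓ :=
    (((le_max_right _ _).trans (le_max_left _ _)).trans (le_max_right _ _)).trans hℓ
  have q7 : K' * (1 + 2 * R ^ 2) ≤ ℓ := ((le_max_right _ _).trans (le_max_right _ _)).trans hℓ
  have hLp : 0 < ℓ := by
    have : 0 < 4 * X * (1 + 11 * K') := by positivity
    linarith only [this, q5]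
  have hG' : 0 < G * Real.exp (t * ℓ ^ 2) := mul_pos hU.hG (Real.exp_pos _)
  have hUp := hup ℓ G t f q1 hU ht hX2
  have hTC := htc ℓ (G * Real.exp (t * ℓ ^ 2)) (heat t f) hLp hG' (heat_diff hU.slow ht.le)
    (fun u a1 a2 a3 => hz u a1 a3.le) (by
      intro u a1 a2 a3
      refine (hUp u).trans ?_
      apply mul_le_mul_of_nonneg_left _ hG'.le
      apply Real.exp_le_exp.2
      have b1 : ℓ * max |u.re| ϑ0 ≤ ℓ * (u.re + ϑ0) := by
        apply mul_le_mul_of_nonneg_left _ hLp.le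
        rw [abs_of_pos a1]
        exact max_le (by linarith) (by linarith)
      have b2 : ‖u‖ ^ 2 ≤ 2 * R ^ 2 := by
        rw [Complex.sq_norm, Complex.normSq_apply]
        have c1 : u.re * u.re ≤ R * R := mul_self_le_mul_self a1.le a2.le
        have c2 : u.im * u.im ≤ R * R := by
          rw [← abs_mul_abs_self u.im]
          exact mul_self_le_mul_self (abs_nonneg _) a3.le
        nlinarith only [c1, c2]
      have b3 : K' * (1 + ‖u‖ ^ 2) ≤ K' * (1 + 2 * R ^ 2) := by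
        apply mul_le_mul_of_nonneg_left _ (by linarith)
        linarith
      linarith only [b1, b3, q7]) (by
      intro u a1 a2 a3
      exact hlo ℓ G t f q2 hU ht hg1 hX2 u a1.le a2.le a3.le)
  exact core hS h4 hU.slow hϑ2 hg hX1 hρ0 hρg hρ1 hr0 hκ hθ0 hθ1 hθ4 hε1 hε2 rfl hK' hG' ht q5 q6
    (hℓ3 ℓ q3) (by rw [div_le_iff₀ hκ0] at q4; linarith only [q4]) hg1 hX2 hx1 hx2 hUp
    (fun u a1 a2 => hz u a1 (a2.trans hR)) hTC

end Pool.Agent.W85.HF
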